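import Pool.Agent.TH22.UF.Reverse
import Pool.Agent.TH22.UF.Braid

/-!
# Braided fusion categories with unitary F-matrices are unitary braided fusion categories
-/

open CategoryTheory CategoryTheory.Limits MonoidalCategory Pool.Agent.TH22.UF

universe v u

/-- A braided fusion category has a gauge in which all the F-matrices are unitary if and only if
it is a unitary braided fusion category. No hypothesis on the braiding matrices is needed. -/
theorem Pool.Agent.Results.MP_7857a6_al.BraidedUnitaryF.result
    (C : Type u) [Category.{v} C] [Abelian C] [Linear ℂ C] [HasFiniteBiproducts C]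
    [MonoidalCategory C] [MonoidalPreadditive C] [MonoidalLinear ℂ C] [RigidCategory C]
    [BraidedCategory C]
    (hC : IsFusionCategory C) (r : ℕ) (S : Fin r → C) (hS : IsSimpleList S) :
    (∃ g : Gauge S, g.UnitaryF) ↔ IsBraidedUnitary C := by
  refine ⟨fun ⟨g, hg⟩ => isBraidedUnitary_of_unitaryF hC hS g hg, fun h => ?_⟩
  obtain ⟨D, i1, i2, i3, i4, i5, s, F, i6, i7, i8, i9, -⟩ := h
  exact exists_gauge_of_isUnitary hC hS ⟨D, i1, i2, i3, i4, s, F, inferInstance, i7, i8, i9⟩
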