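import Pool.Agent.TH22.UF.Reverse

/-!
# Unitary F-matrices are equivalent to unitarity of a fusion category
-/

open CategoryTheory CategoryTheory.Limits MonoidalCategory Pool.Agent.TH22.UF

universe v u

/-- A fusion category has a gauge in which all the F-matrices are unitary if and only if it is
unitary. -/
theorem Pool.Agent.Results.MP_7857a6_al.UnitaryFMatrices.result
    (C : Type u) [Category.{v} C] [Abelian C] [Linear ℂ C] [HasFiniteBiproducts C]
    [MonoidalCategory C] [MonoidalPreadditive C] [MonoidalLinear ℂ C] [RigidCategory C]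
    (hC : IsFusionCategory C) (r : ℕ) (S : Fin r → C) (hS : IsSimpleList S) :
    (∃ g : Gauge S, g.UnitaryF) ↔ IsUnitary C :=
  ⟨fun ⟨g, hg⟩ => isUnitary_of_unitaryF hC hS g hg, fun h => exists_gauge_of_isUnitary hC hS h⟩
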